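import Pool.Agent.Lib.MP_8f49b0_lc.MM.E.Main

/-!
# MM(ℵ₁) does not imply Baumgartner's Axiom

There is a model of ZFC in which the forcing axiom holds for all posets with at most `ℵ₁` elements which
preserve stationary subsets of `ω₁`, and in which there are two `ℵ₁`-dense sets of real numbers which are
not order isomorphic.

`Ms.MMnotBA E` (`MM/E/Stmt.lean`, self-contained) is this statement, read in the structure `(M, E)`; it only
quantifies over elements of `M`, and `φ` is the corresponding sentence of the language of set theory.

The model is the two-valued quotient of the Boolean-valued model over the regular open algebra of the
following poset. Conditions are finite; they consist of a finite part of `ω₁` Cohen reals, finitely many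
transitive nodes `(α, x)` with a working part `h < ω₁`, and finitely many countable nodes. An ordinal `x`
codes a name of a preorder on `ω₁`, and a node `(α, x)` may be used if this preorder is proper in a strong
sense for chains of models and does not destroy the following property of the Cohen reals: of
uncountably many pairwise disjoint finite tuples of them there are two which are in increasing order at
all coordinates. The length of the iteration is the class of the ordinals of the lowest universe (an
inaccessible cardinal). The proof:
* (`S`, `I`, `J`) coding, the amalgamation of conditions, genericity, the property of the Cohen reals;
* (`M`) every preorder on `ω₁` in the extension which preserves stationary sets is a good iterand;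
  this gives the forcing axiom for names;
* (`A`) a set of reals obtained from the Cohen reals is not isomorphic to its reverse;
* (`E`) the value of the sentence `φ` is computed.
-/

namespace Pool.Agent.Results.MP_8f49b0_lc.MMAleph1WithoutBA

open Pool.Agent.Lib.MP_8f49b0_lc.MM Pool.Agent.Lib.MP_4d8715_gt.KR

/-- There is a sentence `φ` of the language of set theory which says that MM(ℵ₁) holds and Baumgartner's
Axiom fails; and there is a model of ZFC in which `φ` holds. -/
theorem result : ∃ φ : Fml 0,
    (∀ (M : Type 2) (E : M → M → Prop), Fml.Sat E φ ![] ↔ Ms.MMnotBA E) ∧
    ∃ (M : Type 2) (E : M → M → Prop), (∀ ψ ∈ Fml.ZFC, Fml.Sat E ψ ![]) ∧ Fml.Sat E φ ![] :=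
  main

end Pool.Agent.Results.MP_8f49b0_lc.MMAleph1WithoutBA
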